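import Pool.Agent.MP_86c931_ag.H88.Ser

/-! The quantum reduction of the Moyal algebra by the raising Hamiltonian. -/

namespace Pool.Agent.MP_86c931_ag.H88

open H56 PowerSeries

lemma lin_z (α : Fin 3) (k : K6) (s t : S18) : dF s (dF t (zF α k)) = 0 := by
  rw [zF, zP, dF_X]; split_ifs <;> simp

lemma q_z (α : Fin 3) (k : K6) (s t u : S18) : dF s (dF t (dF u (zF α k))) = 0 := by
  rw [lin_z, map_zero]

lemma q_He (s t u : S18) : dF s (dF t (dF u He)) = 0 := He_eq ▸ quad_om (lin_z 0) (lin_z 1) s t u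

lemma q_Hh (s t u : S18) : dF s (dF t (dF u Hh)) = 0 := Hh_eq ▸ quad_om (lin_z 0) (lin_z 2) s t u

lemma brk_He (f : F) : brk dF S18.dual S18.sgn f He = De f := (adF_apply f He).symm.trans (adF_He f)

lemma brk_Hh (f : F) : brk dF S18.dual S18.sgn f Hh = Dh f := (adF_apply f Hh).symm.trans (adF_Hh f)

lemma He_ne_zero : He ≠ 0 := fun h => zF_ne_zero 0 (0, true) (by
  rw [← De_z1, ← adF_He, h, map_zero])

lemma div_He (hR : RowREG) {I : Finset K6} {a : F} (ha : a ∈ Pa) (h : a * He ∈ PI I) :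
    a ∈ PI I := by
  obtain ⟨m, n, h1⟩ := ha
  obtain ⟨m', n', h2⟩ := h
  have h3 : ∀ (s : Finset K6) (p : P), HeP ∣ (∏ k ∈ s, zP 0 k) * p → HeP ∣ p := fun s => by
    induction s using Finset.induction_on with
    | empty => simp
    | insert k s hk ih =>
      intro p hp
      rw [Finset.prod_insert hk, mul_assoc] at hp
      exact ih p (hR.1 k _ hp)
  have h4 : ∀ (j : ℕ) (p : P), HeP ∣ (∏ k, zP 0 k) ^ j * p → HeP ∣ p := fun j => by
    induction j with
    | zero => simp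
    | succ j ih =>
      intro p hp
      rw [pow_succ', mul_assoc] at hp
      exact ih p (h3 _ _ hp)
  obtain ⟨q, rfl⟩ := h4 m n' ⟨n * (∏ k ∈ I, zP 0 k) ^ m', iF_inj (by
    rw [map_mul, map_mul, map_mul, map_pow, map_pow, ← xI_eq, ← xI_eq, ← h1, ← h2, ← He]; ring)⟩
  refine ⟨m', q, mul_left_cancel₀ He_ne_zero ?_⟩
  rw [map_mul, ← He] at h2
  rw [← h2]; ring

variable (A : Moyal F dF S18.dual S18.sgn)

/-- series over a localization -/
noncomputable def SI (I : Finset K6) : Subalgebra ℂ⟦X⟧ A.W :=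
  SerIn A (PI I) fun s _ => dF_mem_PI s

/-- invariant series over a localization -/
noncomputable def NI (I : Finset K6) : Subalgebra ℂ⟦X⟧ A.W :=
  SI A I ⊓ Subalgebra.centralizer ℂ⟦X⟧ {cst A He, cst A Hh}

variable {A}

lemma mem_SI {I : Finset K6} {w : A.W} : w ∈ SI A I ↔ ∀ n, co A n w ∈ PI I := Iff.rfl

lemma mem_NI' {I : Finset K6} {w : A.W} : w ∈ NI A I ↔
    w ∈ SI A I ∧ cst A He * w = w * cst A He ∧ cst A Hh * w = w * cst A Hh := by
  simp [NI, Algebra.mem_inf, Subalgebra.mem_centralizer_iff]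

lemma mem_NI {I : Finset K6} {w : A.W} : w ∈ NI A I ↔ ∀ n, co A n w ∈ PIb I := by
  rw [mem_NI', commute_iff q_He, commute_iff q_Hh, mem_SI, ← forall_and, ← forall_and]
  simp only [brk_He, brk_Hh]
  rfl

lemma NI_mono {I I' : Finset K6} (h : I ⊆ I') : NI A I ≤ NI A I' := fun _ hw =>
  mem_NI.2 fun n => ⟨PI_mono h (mem_NI.1 hw n).1, (mem_NI.1 hw n).2⟩

lemma cst_SI {I : Finset K6} {f : F} (h : f ∈ PI I) : cst A f ∈ SI A I := cst_mem h

lemma e_SI (I : Finset K6) : cst A He ∈ SI A I := cst_SI (iF_mem_PI _ _)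

lemma h_SI (I : Finset K6) : cst A Hh ∈ SI A I := cst_SI (iF_mem_PI _ _)

lemma comm_e (f : F) : cst A f * cst A He - cst A He * cst A f = hb • cst A (De f) := by
  rw [cst_comm_cst q_He, brk_He]

lemma comm_h (f : F) : cst A f * cst A Hh - cst A Hh * cst A f = hb • cst A (Dh f) := by
  rw [cst_comm_cst q_Hh, brk_Hh]

lemma mul_e_comm_e (f : F) : cst A f * cst A He * cst A He - cst A He * (cst A f * cst A He) =
    hb • (cst A (De f) * cst A He) := by
  rw [← mul_assoc, ← sub_mul, comm_e, smul_mul_assoc]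

lemma mul_e_comm_h {f : F} (h : Dh f = -f) :
    cst A Hh * (cst A f * cst A He) = cst A f * cst A He * cst A Hh := by
  have h1 := comm_h (A := A) f
  have h2 := comm_h (A := A) He
  rw [h, map_neg, smul_neg, sub_eq_iff_eq_add'] at h1
  rw [Dh_He, sub_eq_iff_eq_add'] at h2
  rw [mul_assoc, h2, mul_add, ← mul_assoc (cst A f), h1, add_mul, mul_smul_comm, neg_mul,
    smul_mul_assoc, mul_assoc, neg_add_cancel_right]

lemma hb_cancel {a : A.W} (ha : a ∈ SI A Finset.univ) (h : co A 0 (a * cst A He) = 0) :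
    ∃ a' ∈ SI A Finset.univ, a = hb • a' := by
  rw [co_zero_mul, co_zero_cst, mul_eq_zero, or_iff_left He_ne_zero] at h
  exact ⟨_, fun n => by simpa using ha (n + 1), eq_hb_smul h⟩

variable (A) in
/-- multiples of the raising Hamiltonian -/
noncomputable def KE : Ideal (NI A Finset.univ) where
  carrier := {w | ∃ a ∈ SI A Finset.univ, (w : A.W) = a * cst A He}
  add_mem' := by
    rintro _ _ ⟨a, ha, h⟩ ⟨b, hb, h'⟩
    exact ⟨a + b, add_mem ha hb, by rw [add_mul, ← h, ← h']; rfl⟩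
  zero_mem' := ⟨0, zero_mem _, by simp⟩
  smul_mem' := by
    rintro c _ ⟨a, ha, h⟩
    exact ⟨c * a, mul_mem c.2.1 ha, by rw [mul_assoc, ← h]; rfl⟩

instance : (KE A).IsTwoSided := ⟨by
  rintro w c ⟨a, ha, h⟩
  exact ⟨a * c, mul_mem ha c.2.1, by
    rw [mul_assoc, ← (mem_NI'.1 c.2).2.1, ← mul_assoc, ← h]; rfl⟩⟩

variable (A) in
/-- the quotient map -/
noncomputable def mkM : NI A Finset.univ →ₐ[ℂ⟦X⟧] NI A Finset.univ ⧸ KE A :=
  Ideal.Quotient.mkₐ ℂ⟦X⟧ (KE A)

lemma mkM_surj : Function.Surjective (mkM A) := Ideal.Quotient.mkₐ_surjective _ _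

lemma mkM_eq {v w : NI A Finset.univ} : mkM A v = mkM A w ↔
    ∃ a ∈ SI A Finset.univ, (v : A.W) - w = a * cst A He := Ideal.Quotient.eq

variable (A) in
/-- the leading coefficient -/
noncomputable def lead : NI A Finset.univ →+* Pab where
  toFun w := ⟨co A 0 w, mem_NI.1 w.2 0⟩
  map_one' := Subtype.ext (show co A 0 1 = 1 by rw [← cst_one, co_zero_cst])
  map_mul' v w := Subtype.ext (co_zero_mul _ _)
  map_zero' := Subtype.ext (map_zero _)
  map_add' v w := Subtype.ext (map_add _ _ _)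

lemma ker_NI (hR : RowREG) {I : Finset K6} {w : NI A Finset.univ} (hw : (w : A.W) ∈ NI A I)
    (h : mkt (lead A w) = 0) :
    ∃ d : NI A Finset.univ, (d : A.W) ∈ NI A I ∧ mkM A w = hb • mkM A d := by
  obtain ⟨a, ha, h⟩ := mkt_eq_zero.1 h
  have h0 := mem_NI.1 hw 0
  change co A 0 w = _ at h
  rw [h] at h0
  have h1 : De a = 0 := by
    simpa [Derivation.leibniz, De_He, He_ne_zero] using h0.2.1
  have h2 : Dh a = -a := mul_left_cancel₀ He_ne_zero (by
    have := h0.2.2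
    rw [Derivation.leibniz, Dh_He, smul_eq_mul, smul_eq_mul] at this
    linear_combination this)
  have h3 : cst A a * cst A He ∈ NI A I :=
    mem_NI'.2 ⟨mul_mem (cst_SI (div_He hR ha h0.1)) (e_SI I), by
      rw [eq_comm, ← sub_eq_zero, mul_e_comm_e, h1, map_zero, zero_mul, smul_zero], mul_e_comm_h h2⟩
  have h4 := mem_NI.1 (sub_mem hw h3)
  have h5 : ofCo A (fun n => co A (n + 1) (w - cst A a * cst A He)) ∈ NI A I :=
    mem_NI.2 fun n => by rw [co_ofCo]; exact h4 _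
  refine ⟨⟨_, NI_mono (Finset.subset_univ I) h5⟩, h5, ?_⟩
  rw [← map_smul, mkM_eq]
  refine ⟨cst A a, cst_SI ha, ?_⟩
  rw [Subalgebra.coe_smul, ← eq_hb_smul (by rw [map_sub, co_zero_mul, h]; simp), sub_sub_cancel]

variable (A) in
/-- the reduction as a deformation -/
noncomputable def QM (hR : RowREG) : PQ Ot (NI A Finset.univ ⧸ KE A) where
  π := Ideal.Quotient.lift (KE A) ((mkt : Pab →+* Ot).comp (lead A)) (by
    rintro w ⟨a, ha, h⟩
    exact mkt_eq_zero.2 ⟨co A 0 a, ha 0, (congrArg (co A 0) h).trans (by simp [co_zero_mul])⟩)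
  π_alg c := (congrArg mkt (Subtype.ext (co_zero_algebraMap c))).trans (mkt.commutes _)
  ker c hc := by
    obtain ⟨w, rfl⟩ := mkM_surj c
    obtain ⟨d, -, h⟩ := ker_NI hR w.2 hc
    exact ⟨_, h⟩

lemma QM_π (hR : RowREG) (w : NI A Finset.univ) : (QM A hR).π (mkM A w) = mkt (lead A w) := rfl

lemma H_mem (k : K6) : cst A Hh + cst A (zF 1 k / zF 0 k) * cst A He ∈ NI A {k} := by
  have h0 := zF_ne_zero 0 k
  refine mem_NI'.2 ⟨add_mem (h_SI _) (mul_mem (cst_SI (mul_mem (zF_mem_PI _ _ _)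
    (inv_mem_PI (Finset.mem_singleton_self k)))) (e_SI _)), ?_, ?_⟩
  · have : De (zF 1 k / zF 0 k) = 1 := by
      rw [Derivation.leibniz_div_const _ _ _ (De_z0 k), De_z1, smul_eq_mul, inv_mul_cancel₀ h0]
    rw [eq_comm, ← sub_eq_zero, add_mul, mul_add, add_sub_add_comm, comm_e, mul_e_comm_e, this,
      De_Hh, cst_one, one_mul, map_neg, smul_neg, neg_add_cancel]
  · rw [add_mul, mul_add, mul_e_comm_h]
    rw [Derivation.leibniz_div, Dh_z0, Dh_z1]
    simp only [smul_eq_mul]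
    field_simp
    ring

theorem rowMOD (hS : RowSTAR) (hT : RowTR) (hR : RowREG) : RowMOD := by
  obtain ⟨A⟩ := hS F S18 dF S18.dual S18.sgn dF_comm S18.dual_dual S18.sgn_dual
  have hs : ∀ k, zF 1 k / zF 0 k ∈ Pa := fun k =>
    mul_mem (zF_mem_PI _ _ _) (inv_mem_PI (Finset.mem_univ k))
  let H : K6 → NI A Finset.univ := fun k => ⟨_, NI_mono (Finset.subset_univ _) (H_mem k)⟩
  refine ⟨_, inferInstance, inferInstance, QM A hR,
    fun I => ((NI A I).comap (NI A Finset.univ).val).map (mkM A), mkM A (H (0, true)),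
    fun c hc => ?_, fun a b c h => ?_, fun f => ?_,
    fun I I' h => Subalgebra.map_mono fun _ hw => NI_mono h hw, fun I => ⟨?_, ?_, ?_⟩,
    fun k => ⟨H k, H_mem k, mkM_eq.2 ⟨_, sub_mem (cst_SI (hs k)) (cst_SI (hs (0, true))), ?_⟩⟩,
    ⟨lead A (H (0, true)), ⟨_, hs (0, true), ?_⟩, rfl⟩, fun m => ?_, ?_⟩
  · obtain ⟨w, rfl⟩ := mkM_surj c
    rw [← map_smul, ← map_zero (mkM A), mkM_eq] at hc
    obtain ⟨a, ha, h⟩ := hc
    rw [Subalgebra.coe_smul, ZeroMemClass.coe_zero, sub_zero] at h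
    obtain ⟨a, ha', rfl⟩ := hb_cancel ha (by rw [← h, co_zero_hb])
    rw [← map_zero (mkM A), mkM_eq]
    exact ⟨a, ha', by simpa [sub_eq_zero] using tf ((w : A.W) - a * cst A He) (by simp [smul_sub, h])⟩
  · obtain ⟨a, rfl⟩ := mkM_surj a
    obtain ⟨b, rfl⟩ := mkM_surj b
    obtain ⟨c, rfl⟩ := mkM_surj c
    rw [← map_mul, ← map_mul, ← map_sub, ← map_smul, mkM_eq] at h
    obtain ⟨u, hu, h⟩ := h
    change (a : A.W) * b - b * a - hb • c = _ at h
    obtain ⟨u, hu', rfl⟩ := hb_cancel hu (by rw [← h]; simp [co_zero_mul, mul_comm])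
    rw [QM_π, QM_π, QM_π, brt_mkt, eq_comm, mkt_eq]
    have := congrArg (co A 1) h
    rw [map_sub, smul_mul_assoc, co_succ_hb, co_succ_hb, co_zero_mul, co_zero_cst, co_apply,
      A.coeff_one_comm] at this
    exact ⟨_, hu' 0, this⟩
  · obtain ⟨p, rfl⟩ := mkt_surj f
    exact ⟨mkM A ⟨cst A p, mem_NI.2 (cst_mem p.2)⟩, congrArg mkt (Subtype.ext (co_zero_cst _))⟩
  · rintro _ ⟨w, hw, rfl⟩
    exact ⟨lead A w, mem_NI.1 hw 0, rfl⟩
  · rintro _ ⟨p, hp, rfl⟩
    exact ⟨_, ⟨⟨cst A p, mem_NI.2 (cst_mem p.2)⟩, mem_NI.2 (cst_mem hp), rfl⟩,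
      congrArg mkt (Subtype.ext (co_zero_cst _))⟩
  · rintro _ ⟨w, hw, rfl⟩ h
    obtain ⟨d, h1, h2⟩ := ker_NI hR hw h
    exact ⟨_, ⟨d, h1, rfl⟩, h2⟩
  · simp only [H, sub_mul, add_sub_add_left_eq_sub]
  · change co A 0 (_ + _) - _ = _
    simp [co_zero_mul]
  · obtain ⟨w, rfl⟩ := mkM_surj m
    rw [← map_mul, ← map_mul, mkM_eq]
    obtain ⟨h1, h2, h3⟩ := mem_NI'.1 w.2
    refine ⟨_, sub_mem (mul_mem (cst_SI (hs (0, true))) h1) (mul_mem h1 (cst_SI (hs (0, true)))), ?_⟩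
    change (_ + _ : A.W) * w - w * (_ + _) = _
    rw [add_mul, mul_add, h3, mul_assoc, h2, sub_mul, mul_assoc, mul_assoc, add_sub_add_left_eq_sub]
  · have key := hT (SI A ∅) (fun α k => ⟨_, cst_SI (zF_mem_PI _ α k)⟩) ⟨_, e_SI _⟩ ⟨_, h_SI _⟩
      (fun α β k l => Subtype.ext (by
        refine (cst_comm_cst (q_z β l) _).trans ?_
        rw [← brF, ← adF_apply, adF_z, wF]
        by_cases h1 : β = α.rev <;> by_cases h2 : l = k.dual <;>
          simp [h1, h2, cst_algebraMap, Algebra.smul_def]))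
      (fun k => Subtype.ext ((comm_e _).trans (by simp [De_z0])))
      (fun k => Subtype.ext ((comm_e _).trans (by simp [De_z1])))
      (fun k => Subtype.ext ((comm_e _).trans (by simp [De_z2])))
      (fun k => Subtype.ext ((comm_h _).trans (by simp [Dh_z0])))
      (fun k => Subtype.ext ((comm_h _).trans (by simp [Dh_z1])))
      (fun k => Subtype.ext ((comm_h _).trans (by simp [Dh_z2])))
    have : ∃ y : NI A Finset.univ, (y : A.W) = (hb ^ 3 • (1 : SI A ∅) : SI A ∅) ∧ mkM A y ∈ comms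
        ((((NI A ∅).comap (NI A Finset.univ).val).map (mkM A) : Subalgebra _ _) : Set _) := by
      generalize hb ^ 3 • (1 : SI A ∅) = x at key
      induction key using Submodule.span_induction with
      | mem _ h =>
        obtain ⟨a, ha, b, hb, rfl⟩ := h
        have h1 : (a : A.W) ∈ NI A ∅ :=
          mem_NI'.2 ⟨a.2, (congrArg Subtype.val ha.1).symm, (congrArg Subtype.val ha.2).symm⟩
        have h2 : (b : A.W) ∈ NI A ∅ :=
          mem_NI'.2 ⟨b.2, (congrArg Subtype.val hb.1).symm, (congrArg Subtype.val hb.2).symm⟩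
        let a' : NI A Finset.univ := ⟨a, NI_mono (Finset.subset_univ _) h1⟩
        let b' : NI A Finset.univ := ⟨b, NI_mono (Finset.subset_univ _) h2⟩
        exact ⟨a' * b' - b' * a', rfl, Submodule.subset_span
          ⟨_, ⟨a', h1, rfl⟩, _, ⟨b', h2, rfl⟩, by rw [map_sub, map_mul, map_mul]; rfl⟩⟩
      | zero => exact ⟨0, rfl, by rw [map_zero]; exact zero_mem _⟩
      | add _ _ _ _ h1 h2 =>
        obtain ⟨y, e, h1⟩ := h1
        obtain ⟨y', e', h2⟩ := h2
        exact ⟨y + y', congrArg₂ (· + ·) e e', by rw [map_add]; exact add_mem h1 h2⟩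
      | smul c _ _ h1 =>
        obtain ⟨y, e, h1⟩ := h1
        exact ⟨c • y, congrArg (c • ·) e, by rw [map_smul]; exact Submodule.smul_mem _ c h1⟩
    obtain ⟨y, e, h⟩ := this
    rwa [show y = hb ^ 3 • 1 from Subtype.ext e, map_smul, map_one] at h

end Pool.Agent.MP_86c931_ag.H88
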