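import Pool.Agent.MP_86c931_ag.H56.RowsC

/-! Coefficients of elements of a Moyal algebra. -/

namespace Pool.Agent.MP_86c931_ag.H88

open H56 PowerSeries

variable {T : Type} [CommRing T] [Algebra ℂ T] {σ : Type} [Fintype σ]
  {d : σ → Derivation ℂ T T} {dual : σ → σ} {ε : σ → ℂ} (A : Moyal T d dual ε)

/-- coefficients -/
noncomputable def co (n : ℕ) : A.W →+ T :=
  (coeff (R := T) n).toAddMonoidHom.comp A.ser.toLinearMap.toAddMonoidHom

/-- the element with given coefficients -/
noncomputable def ofCo (f : ℕ → T) : A.W := A.ser.symm (mk f)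

/-- constants -/
noncomputable def cst : T →+ A.W :=
  A.ser.symm.toLinearMap.toAddMonoidHom.comp (C (R := T)).toAddMonoidHom

variable {A}

lemma co_apply (n : ℕ) (w : A.W) : co A n w = coeff n (A.ser w) := rfl

lemma cst_apply (f : T) : cst A f = A.ser.symm (C f) := rfl

@[simp] lemma co_ofCo (f : ℕ → T) (n : ℕ) : co A n (ofCo A f) = f n := by simp [co_apply, ofCo]

lemma co_ext {v w : A.W} (h : ∀ n, co A n v = co A n w) : v = w :=
  A.ser.injective (PowerSeries.ext h)

@[simp] lemma co_zero_cst (f : T) : co A 0 (cst A f) = f := by simp [co_apply, cst_apply]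

@[simp] lemma co_succ_cst (n : ℕ) (f : T) : co A (n + 1) (cst A f) = 0 := by
  simp [co_apply, cst_apply]

lemma co_smul (n : ℕ) (c : ℂ⟦X⟧) (w : A.W) : co A n (c • w) =
    ∑ p ∈ Finset.HasAntidiagonal.antidiagonal n, coeff p.1 c • co A p.2 w := by
  rw [co_apply, map_smul, Algebra.smul_def, coeff_mul]
  exact Finset.sum_congr rfl fun p _ => by
    rw [Algebra.smul_def]; exact congrArg (· * _) (coeff_map _ _ _)

@[simp] lemma co_zero_hb (w : A.W) : co A 0 (hb • w) = 0 := by simp [co_smul]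

@[simp] lemma co_succ_hb (n : ℕ) (w : A.W) : co A (n + 1) (hb • w) = co A n w := by
  rw [co_apply, map_smul, Algebra.smul_def, show algebraMap ℂ⟦X⟧ T⟦X⟧ X = X from map_X _,
    coeff_succ_X_mul, co_apply]

lemma co_zero_mul (v w : A.W) : co A 0 (v * w) = co A 0 v * co A 0 w := A.coeff_zero_mul v w

lemma cst_one : cst A 1 = 1 := by rw [cst_apply, map_one, ← A.ser_one, A.ser.symm_apply_apply]

lemma cst_algebraMap (c : ℂ) : cst A (algebraMap ℂ T c) = algebraMap ℂ⟦X⟧ A.W (C c) := by
  rw [Algebra.algebraMap_eq_smul_one (A := A.W), ← cst_one, cst_apply, cst_apply, ← map_smul,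
    map_one, Algebra.smul_def, mul_one]
  exact congrArg _ (map_C _ _).symm

lemma co_zero_algebraMap (c : ℂ⟦X⟧) :
    co A 0 (algebraMap ℂ⟦X⟧ A.W c) = algebraMap ℂ T (constantCoeff c) := by
  rw [Algebra.algebraMap_eq_smul_one, ← cst_one, co_smul]
  simp [Algebra.algebraMap_eq_smul_one]

lemma eq_hb_smul {w : A.W} (h : co A 0 w = 0) : w = hb • ofCo A fun n => co A (n + 1) w :=
  co_ext fun n => by cases n <;> simp [h]

lemma tf : TF A.W := fun w h => co_ext fun n => by rw [← co_succ_hb, h, map_zero, map_zero]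

lemma cst_mem {T' : Subalgebra ℂ T} {f : T} (h : f ∈ T') (n : ℕ) : co A n (cst A f) ∈ T' := by
  cases n
  · simpa using h
  · simp

variable (A) in
/-- series with coefficients in a subalgebra stable under the derivations -/
def SerIn (T' : Subalgebra ℂ T) (h : ∀ s, ∀ f ∈ T', d s f ∈ T') : Subalgebra ℂ⟦X⟧ A.W where
  carrier := {w | ∀ n, co A n w ∈ T'}
  mul_mem' := fun {a b} ha hb => A.mul_mem T' h a b ha hb
  add_mem' := fun ha hb n => by rw [map_add]; exact add_mem (ha n) (hb n)
  algebraMap_mem' c n := by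
    rw [Algebra.algebraMap_eq_smul_one, ← cst_one, co_smul]
    exact sum_mem fun p _ => T'.smul_mem (cst_mem T'.one_mem _) _

lemma mem_SerIn {T' : Subalgebra ℂ T} {h : ∀ s, ∀ f ∈ T', d s f ∈ T'} {w : A.W} :
    w ∈ SerIn A T' h ↔ ∀ n, co A n w ∈ T' := Iff.rfl

lemma comm_cst {H : T} (h : ∀ s t u, d s (d t (d u H)) = 0) (w : A.W) :
    w * cst A H - cst A H * w = hb • ofCo A fun n => brk d dual ε (co A n w) H :=
  co_ext fun n => by
    cases n with
    | zero => rw [map_sub, co_zero_mul, co_zero_mul, mul_comm, sub_self, co_zero_hb]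
    | succ n => rw [co_succ_hb, co_ofCo]; exact A.quad H h w n

lemma cst_comm_cst {H : T} (h : ∀ s t u, d s (d t (d u H)) = 0) (f : T) :
    cst A f * cst A H - cst A H * cst A f = hb • cst A (brk d dual ε f H) := by
  rw [comm_cst h]
  exact congrArg _ (co_ext fun n => by cases n <;> simp [brk])

lemma commute_iff {H : T} (h : ∀ s t u, d s (d t (d u H)) = 0) {w : A.W} :
    cst A H * w = w * cst A H ↔ ∀ n, brk d dual ε (co A n w) H = 0 := by
  rw [eq_comm, ← sub_eq_zero, comm_cst h]
  refine ⟨fun h n => ?_, fun h => by rw [show ofCo A _ = 0 from co_ext (by simpa using h), smul_zero]⟩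
  simpa using congrArg (co A n) (tf _ h)

omit [Fintype σ] in
lemma quad_om {u v : K6 → T} (hu : ∀ k s t, d s (d t (u k)) = 0) (hv : ∀ k s t, d s (d t (v k)) = 0)
    (s t r : σ) : d s (d t (d r (om u v))) = 0 := by
  simp [om, Derivation.leibniz, hu, hv]

end Pool.Agent.MP_86c931_ag.H88
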